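import Pool.Agent.Lib.MP_ad4d1c_co_h64.ExJ1
import Pool.Agent.Lib.MP_ad4d1c_co_h42.ExJ2
import Pool.Agent.Lib.MP_ad4d1c_co_h87.ExC1

set_option autoImplicit false

/-!
# The last join (module FIN)
-/

namespace Pool.Agent.Lib.MP_ad4d1c_co_h48.Ex

open Finset Pool.Agent.Lib.MP_ad4d1c_co_h51 J1

namespace FIN

variable {m : ℕ} {α : List ℕ} {T L : Fam}

lemma topK_lt (hm : 12 ≤ m) : topK m < m - 1 := by
  unfold topK; split_ifs <;> omega

lemma L_ne (hm : 12 ≤ m) (hW : WF m (m :: α) T L) (k : ℕ) (h1 : 1 ≤ k) (h2 : k ≤ m - 1) :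
    L k ≠ [] := by
  intro h0
  have h3 := tl_len hW.tpv hW.gs k
  rw [h0, List.length_nil] at h3
  rcases Nat.lt_or_ge k (m - 1) with h | h
  · have h4 := hW.tpv.tlen k
    have h5 : 2 ≤ (m - 1).choose k := by
      obtain ⟨j, rfl⟩ := Nat.exists_eq_add_of_le' h1
      obtain ⟨n, hn⟩ : ∃ n, m - 1 = n + 1 := ⟨m - 2, by omega⟩
      rw [hn, Nat.choose_succ_succ']
      have a1 := Nat.choose_pos (n := n) (k := j) (by omega)
      have a2 := Nat.choose_pos (n := n) (k := j + 1) (by omega)
      omega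
    omega
  · have hk : k = m - 1 := by omega
    subst hk
    rw [hW.tnone (m - 1) (Or.inr (topK_lt hm)), Nat.choose_self] at h3
    simp at h3

lemma getLast_some {l : List Pr} (h : l ≠ []) : ∃ p, l.getLast? = some p :=
  ⟨l.getLast h, List.getLast?_eq_some_getLast h⟩

lemma det0L_pos {k : ℕ} (hk : 1 ≤ k) : det0L L k = L k := by
  simp only [det0L]; rw [if_neg (by omega)]

lemma det0T_pos {k : ℕ} (hk : 1 ≤ k) : det0T T L k = T k := by
  simp only [det0T]; rw [if_neg (by omega)]

lemma hs_det (hW : WF m (m :: α) T L) :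
    ∀ k, ∀ p ∈ det0T T L k, p.1 = sTop m (k + 1) := by
  intro k p hp
  by_cases k0 : k = 0
  · subst k0
    have hp' : p ∈ L 0 := by simpa [det0T] using hp
    have hT0 : T 0 = [] := hW.tnone 0 (by omega)
    have hl : (L 0).length = 1 := by
      have := tl_len hW.tpv hW.gs 0
      rw [hT0] at this
      simpa using this
    obtain ⟨p0, h0⟩ := List.length_eq_one_iff.1 hl
    rw [h0, List.mem_singleton] at hp'
    subst hp'
    have := hW.tpv.head 0 p (by rw [h0]; rfl)
    rw [this]
    simp [sTop, sV, sO]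
  · rw [det0T_pos (by omega)] at hp
    by_cases h : 2 ≤ k ∧ k ≤ topK m
    · obtain ⟨c, hc⟩ := hW.tsome k h.1 h.2
      rw [hc, List.mem_singleton] at hp
      rw [hp]
    · rw [hW.tnone k (by omega)] at hp
      simp at hp

lemma he_det (m : ℕ) (α : List ℕ) (L : Fam) : ∀ k, det0L L k ≠ [] →
    eV m α (k + 1) = ((m :: α).take (k + 1)).toFinset := by
  intro k hk
  have k0 : k ≠ 0 := by
    rintro rfl
    exact hk rfl
  simp only [eV]
  rw [if_neg (by omega), if_neg (by omega), List.take_succ_cons, List.toFinset_cons,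
    Nat.add_sub_cancel]

lemma sTop_two (hm : 12 ≤ m) : ({1} : Finset ℕ) ⊆ sTop m 2 := by
  have h : sTop m 2 = tau 2 := by
    rcases Nat.mod_two_eq_zero_or_one m with he | he
    · rw [sTop, if_pos he, sV, if_neg (by omega), if_neg (by omega), if_neg (by omega),
        if_neg (by omega), if_neg (by omega)]
    · rw [sTop, if_neg (by omega), sO, if_neg (by omega), if_neg (by omega), if_neg (by omega),
        if_neg (by omega), if_neg (by omega), if_neg (by omega)]
  rw [h]
  decide

lemma link_one (hm : 12 ≤ m) (hW : WF m (m :: α) T L) :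
    joinE (m + 1) (eV m α) (det0L L) 1 ⊆ joinS (m + 1) (sTop m) (det0T T L) 2 := by
  have h1 : joinE (m + 1) (eV m α) (det0L L) 1 = {1} := rfl
  have h2 : joinS (m + 1) (sTop m) (det0T T L) 2 = sTop m 2 := by
    simp only [joinS]
    rw [det0T_pos le_rfl, hW.tnone 1 (by omega)]
  rw [h1, h2]
  exact sTop_two hm

lemma joinE_pos (hm : 12 ≤ m) (hW : WF m (m :: α) T L) (k : ℕ) (h1 : 1 ≤ k) (h2 : k ≤ m - 1) :
    ∃ p, (L k).getLast? = some p ∧
      joinE (m + 1) (eV m α) (det0L L) (k + 1) = insert (m + 1) p.2 := by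
  obtain ⟨p, hp⟩ := getLast_some (L_ne hm hW k h1 h2)
  refine ⟨p, hp, ?_⟩
  simp only [joinE]
  rw [det0L_pos h1, hp]

lemma link_mid (hm : 12 ≤ m) (hW : WF m (m :: α) T L) (k : ℕ) (h1 : 1 ≤ k) (h2 : k + 1 ≤ topK m) :
    joinE (m + 1) (eV m α) (det0L L) (k + 1) ⊆
      joinS (m + 1) (sTop m) (det0T T L) (k + 1 + 1) := by
  have h3 := topK_lt hm
  obtain ⟨p, hp, h4⟩ := joinE_pos hm hW k h1 (by omega)
  obtain ⟨c, hc⟩ := hW.tsome (k + 1) (by omega) h2
  have h5 : joinS (m + 1) (sTop m) (det0T T L) (k + 1 + 1) = insert (m + 1) c := by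
    simp only [joinS]
    rw [det0T_pos (by omega), hc]
  rw [h4, h5]
  exact Finset.insert_subset_insert _ (hW.link k h1 p hp (sTop m (k + 1 + 1), c)
    (by rw [hc]; simp))

lemma last_sub (hW : WF m (m :: α) T L) {k : ℕ} {p : Pr} (hp : (L k).getLast? = some p) :
    insert (m + 1) p.2 ⊆ Icc 1 (m + 1) := by
  have h := tl_mem hW.tpv hW.gs k p (List.mem_append_right _ (List.mem_of_getLast? hp))
  exact ins_sub (h.1.trans h.2.1)

theorem fin_even {V : Fam} (hm : 12 ≤ m) (he : m % 2 = 0) (hV : VV m (sV m 1) (eV m α) V)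
    (hW : WF m (m :: α) T L) : Good (m + 1) := by
  have hS : sV m 1 = sTop m := by
    funext k; simp [sTop, he]
  rw [hS] at hV
  have hK : topK m = m - 2 := by simp [topK, he]
  have h0 : T 0 = [] := hW.tnone 0 (by omega)
  have hT1 : det0T T L (m - 1) = [] := by
    rw [det0T_pos (by omega)]
    exact hW.tnone (m - 1) (Or.inr (topK_lt hm))
  have hVV := VV.join_even he (by omega) rfl hV (TPV.det0 hW.tpv h0) hW.gs (hs_det hW) hT1
    (fun k _ hk => he_det m α L k hk)
  refine VV.good (by omega) hVV ?_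
  intro k hk _
  -- ends
  have eE : ∀ k, k ≤ m → topE m (joinE (m + 1) (eV m α) (det0L L)) k =
      joinE (m + 1) (eV m α) (det0L L) k := by
    intro k hk
    rw [topE, if_neg (by omega)]
  have eS : ∀ k, k < m → topS m (m + 1) (det0L L) (joinS (m + 1) (sTop m) (det0T T L)) k =
      joinS (m + 1) (sTop m) (det0T T L) k := by
    intro k hk
    rw [topS, if_neg (by omega), if_neg (by omega)]
  rw [eE k (by omega)]
  rcases Nat.lt_or_ge k (m - 1) with h1 | h1
  · rw [eS _ (by omega)]
    match k, h1 with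
    | 0, _ => exact Finset.empty_subset _
    | 1, _ => exact link_one hm hW
    | k + 2, h1 => exact link_mid hm hW (k + 1) (by omega) (by omega)
  rcases Nat.lt_or_ge k m with h2 | h2
  · have h3 : k = m - 2 + 1 := by omega
    subst h3
    obtain ⟨p, hp, h4⟩ := joinE_pos hm hW (m - 2) (by omega) (by omega)
    have hlen : (L (m - 1)).length = 1 := by
      have := tl_len hW.tpv hW.gs (m - 1)
      rw [hW.tnone (m - 1) (Or.inr (topK_lt hm)), Nat.choose_self] at this
      simpa using this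
    obtain ⟨q, hq⟩ := List.length_eq_one_iff.1 hlen
    have h5 : topS m (m + 1) (det0L L) (joinS (m + 1) (sTop m) (det0T T L)) (m - 2 + 1 + 1) =
        insert (m + 1) q.2 := by
      have h6 : m - 2 + 1 + 1 = m := by omega
      rw [h6, topS, if_pos rfl, det0L_pos (by omega), hq]
    rw [h4, h5]
    refine Finset.insert_subset_insert _ (hW.toplink (m - 2) hK.symm p hp q ?_)
    have h6 : m - 2 + 1 = m - 1 := by omega
    rw [h6, hq]; simp
  · have h3 : k = m - 1 + 1 := by omega
    have h5 : topS m (m + 1) (det0L L) (joinS (m + 1) (sTop m) (det0T T L)) (k + 1) =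
        Icc 1 (m + 1) := by
      rw [topS, if_neg (by omega), if_pos (by omega)]
    rw [h5]
    subst h3
    obtain ⟨p, hp, h4⟩ := joinE_pos hm hW (m - 1) (by omega) (by omega)
    rw [h4]
    exact last_sub hW hp

theorem fin_odd {V : Fam} {α0 : List ℕ} {t : ℕ} (hm : 13 ≤ m) (ho : m % 2 = 1)
    (hα : α = α0 ++ [t, 4, 3, 2, 5, 7]) (hp : α.Perm (List.range' 1 (m - 1)))
    (hV : VV m (sO m 7) (eV m α) V) (hW : WF m (m :: α) T L) : Good (m + 1) := by
  have hm' : 12 ≤ m := by omega
  have hS : sO m 7 = sTop m := by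
    funext k; simp [sTop, ho]
  rw [hS] at hV
  have hK : topK m = m - 3 := by simp [topK, ho]
  have h0 : T 0 = [] := hW.tnone 0 (by omega)
  have hT2 : det0T T L (m - 2) = [] := by
    rw [det0T_pos (by omega)]
    exact hW.tnone (m - 2) (Or.inr (by omega))
  have hαl : α.length = m - 1 := by
    rw [hp.length_eq, List.length_range']
  have hnd : α.Nodup := (hp.nodup_iff).2 (List.nodup_range')
  have hαm : ∀ x, x ∈ α ↔ 1 ≤ x ∧ x < m := by
    intro x
    rw [hp.mem_iff, List.mem_range'_1]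
    omega
  have htake : α.take (m - 2) = α0 ++ [t, 4, 3, 2, 5] := by
    have h1 : α = (α0 ++ [t, 4, 3, 2, 5]) ++ [7] := by rw [hα]; simp
    have h2 : (α0 ++ [t, 4, 3, 2, 5]).length = m - 2 := by
      have := hαl
      rw [h1, List.length_append] at this
      simp only [List.length_singleton] at this
      omega
    rw [h1, ← h2, List.take_left']
    rfl
  have hfs : insert m (α.take (m - 2)).toFinset = Icc 1 m \ {7} := by
    rw [htake]
    have h1 : α = (α0 ++ [t, 4, 3, 2, 5]) ++ [7] := by rw [hα]; simp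
    rw [h1] at hnd hαm
    have h7 : 7 ∉ α0 ++ [t, 4, 3, 2, 5] := by
      intro h
      exact (List.nodup_append.1 hnd).2.2 7 h 7 (by simp) rfl
    ext x
    rw [Finset.mem_insert, List.mem_toFinset, Finset.mem_sdiff, Finset.mem_Icc,
      Finset.mem_singleton]
    have hx := hαm x
    rw [List.mem_append, List.mem_singleton] at hx
    constructor
    · rintro (rfl | h)
      · omega
      · have h2 := hx.1 (Or.inl h)
        refine ⟨by omega, ?_⟩
        rintro rfl
        exact h7 h
    · rintro ⟨h2, h3⟩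
      by_cases hxm : x = m
      · left; exact hxm
      · right
        rcases hx.2 (by omega) with h | h
        · exact h
        · exact absurd h h3
  have hs2 : ∀ p ∈ (det0L L (m - 2)).head?, p.1 = sTop m (m - 1) := by
    intro p hp
    rw [det0L_pos (by omega)] at hp
    rw [hW.tpv.head (m - 2) p hp, List.take_succ_cons, List.toFinset_cons, hfs, ← hS, sO,
      if_neg (by omega), if_neg (by omega), if_neg (by omega), if_pos rfl]
  have hVV := VV.join_rev ho (by omega) rfl hV (TPV.det0 hW.tpv h0) hW.gs (hs_det hW) hT2 hs2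
    (fun k _ hk => he_det m α L k hk)
  refine VV.good (by omega) hVV ?_
  intro k hk hne
  have eE : ∀ k, k ≠ m - 1 → revE m (eV m α) (joinE (m + 1) (eV m α) (det0L L)) k =
      joinE (m + 1) (eV m α) (det0L L) k := by
    intro k hk
    rw [revE, if_neg hk]
  have eS : ∀ k, k ≠ m - 1 → revS m (m + 1) (det0L L) (joinS (m + 1) (sTop m) (det0T T L)) k =
      joinS (m + 1) (sTop m) (det0T T L) k := by
    intro k hk
    rw [revS, if_neg hk]
  rcases Nat.lt_or_ge k (m - 2) with h1 | h1
  · rw [eS _ (by omega), eE _ (by omega)]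
    match k, h1 with
    | 0, _ => exact Finset.empty_subset _
    | 1, _ => exact link_one hm' hW
    | k + 2, h1 => exact link_mid hm' hW (k + 1) (by omega) (by omega)
  rcases Nat.lt_or_ge k (m - 1) with h2 | h2
  · have h3 : k = m - 3 + 1 := by omega
    subst h3
    rw [eE _ (by omega)]
    obtain ⟨p, hp, h4⟩ := joinE_pos hm' hW (m - 3) (by omega) (by omega)
    obtain ⟨q, hq⟩ := getLast_some (L_ne hm' hW (m - 2) (by omega) (by omega))
    have h5 : revS m (m + 1) (det0L L) (joinS (m + 1) (sTop m) (det0T T L)) (m - 3 + 1 + 1) =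
        insert (m + 1) q.2 := by
      rw [revS, if_pos (by omega), det0L_pos (by omega), hq]
    rw [h4, h5]
    refine Finset.insert_subset_insert _ (hW.toplink (m - 3) hK.symm p hp q ?_)
    have h6 : m - 3 + 1 = m - 2 := by omega
    rw [h6, hq]; simp
  rcases Nat.lt_or_ge k m with h3 | h3
  · have h4 : k = m - 1 := by omega
    subst h4
    rw [eS _ (by omega)]
    have h5 : joinS (m + 1) (sTop m) (det0T T L) (m - 1 + 1) = Icc 1 m := by
      simp only [joinS]
      rw [det0T_pos (by omega), hW.tnone (m - 1) (Or.inr (topK_lt hm')), ← hS]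
      simp only [sO]
      rw [if_neg (by omega), if_neg (by omega), if_pos (by omega)]
    have h6 : revE m (eV m α) (joinE (m + 1) (eV m α) (det0L L)) (m - 1) = Icc 1 m \ {7} := by
      rw [revE, if_pos rfl, eV, if_neg (by omega), if_neg (by omega), ← hfs]
      rfl
    rw [h5, h6]
    exact Finset.sdiff_subset
  · exfalso
    have h4 : k = m := by omega
    subst h4
    have := hVV.len (k + 1) le_rfl
    rw [Nat.choose_eq_zero_of_lt (by omega)] at this
    exact hne (List.eq_nil_of_length_eq_zero (by omega))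

end FIN

/-- `good_large` from the statements `wf_exists`, `vs_top_even`, `vs_top_odd` -/
theorem good_large_of
    (Hwf : ∀ (m : ℕ), 12 ≤ m → ∀ {α α0 : List ℕ} {t : ℕ}, α = α0 ++ [t, 4, 3, 2, 5, 7] →
      α.Perm (List.range' 1 (m - 1)) → t ≠ 1 → ∃ T L, WF m (m :: α) T L)
    (Heven : ∀ (m : ℕ), 12 ≤ m → m % 2 = 0 →
      ∃ (α α0 : List ℕ) (t : ℕ) (V : Fam), α = α0 ++ [t, 4, 3, 2, 5, 7] ∧ t ≠ 1 ∧
        α.Perm (List.range' 1 (m - 1)) ∧ VV m (sV m 1) (eV m α) V)
    (Hodd : ∀ (m : ℕ), 13 ≤ m → m % 2 = 1 →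
      ∃ (α α0 : List ℕ) (t : ℕ) (V : Fam), α = α0 ++ [t, 4, 3, 2, 5, 7] ∧ t ≠ 1 ∧
        α.Perm (List.range' 1 (m - 1)) ∧ VV m (sO m 7) (eV m α) V)
    (n : ℕ) (h : 13 ≤ n) : Good n := by
  obtain ⟨m, rfl⟩ : ∃ m, n = m + 1 := ⟨n - 1, by omega⟩
  rcases Nat.mod_two_eq_zero_or_one m with he | ho
  · obtain ⟨α, α0, t, V, hα, ht, hp, hV⟩ := Heven m (by omega) he
    obtain ⟨T, L, hW⟩ := Hwf m (by omega) hα hp ht
    exact FIN.fin_even (by omega) he hV hW
  · obtain ⟨α, α0, t, V, hα, ht, hp, hV⟩ := Hodd m (by omega) ho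
    obtain ⟨T, L, hW⟩ := Hwf m (by omega) hα hp ht
    exact FIN.fin_odd (by omega) ho hα hp hV hW

end Pool.Agent.Lib.MP_ad4d1c_co_h48.Ex
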