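import Pool.Agent.Lib.MP_ad4d1c_co_h48.ExDefs

set_option autoImplicit false

/-!
# Joins of V-families (module J1)
-/

namespace Pool.Agent.Lib.MP_ad4d1c_co_h48.Ex

open Finset

namespace J1

/-- properties of a single level -/
structure Lev (j k : ℕ) (s e : Finset ℕ) (M : List Pr) : Prop where
  mem : ∀ p ∈ M, p.2 ⊆ p.1 ∧ p.1 ⊆ Icc 1 j ∧ p.1.card ≤ k + 1 ∧ p.2.card = k
  pw : M.Pairwise (fun p q => ¬ q.2 ⊆ p.1)
  chain : M.IsChain (fun p q => p.2 ⊆ q.1)
  head : ∀ p ∈ M.head?, p = (s, s)
  last : ∀ p ∈ M.getLast?, p.2 = e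

lemma lev_of {i : ℕ} {s e : ℕ → Finset ℕ} {V : Fam} (h : VV i s e V) (k : ℕ) :
    Lev i k (s k) (e k) (V k) :=
  ⟨h.mem k, h.pw k, h.chain k, h.head k, h.last k⟩

lemma vv_of {i : ℕ} {s e : ℕ → Finset ℕ} {V : Fam} (h : ∀ k, Lev i k (s k) (e k) (V k))
    (cross : ∀ k, ∀ p ∈ V k, ∀ q ∈ V (k + 1), q.2 ≠ p.1)
    (len : ∀ k, k ≤ i → (V k).length = (i - 1).choose k + k % 2)
    (none : ∀ k, i < k → V k = []) : VV i s e V :=
  ⟨fun k => (h k).mem, fun k => (h k).pw, fun k => (h k).chain, cross, len, none,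
    fun k => (h k).head, fun k => (h k).last⟩

lemma Icc_up (i : ℕ) : Icc 1 i ⊆ Icc 1 (i + 1) := Finset.Icc_subset_Icc_right (Nat.le_succ i)

lemma not_mem {i : ℕ} {X : Finset ℕ} (h : X ⊆ Icc 1 i) : i + 1 ∉ X := fun hy => by
  have := Finset.mem_Icc.1 (h hy); omega

lemma ins_sub {i : ℕ} {X : Finset ℕ} (h : X ⊆ Icc 1 i) : insert (i + 1) X ⊆ Icc 1 (i + 1) := by
  refine Finset.insert_subset (Finset.mem_Icc.2 ⟨by omega, le_rfl⟩) (h.trans (Icc_up i))

lemma Lev.up {j k : ℕ} {s e : Finset ℕ} {M : List Pr} (h : Lev j k s e M) : Lev (j + 1) k s e M :=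
  ⟨fun p hp => ⟨(h.mem p hp).1, (h.mem p hp).2.1.trans (Icc_up j), (h.mem p hp).2.2⟩,
    h.pw, h.chain, h.head, h.last⟩

/-- the empty level -/
lemma lev_nil {j k : ℕ} {s e : Finset ℕ} : Lev j k s e [] :=
  ⟨by simp, List.Pairwise.nil, List.isChain_nil, by simp, by simp⟩

lemma sub_of_insert_sub {y : ℕ} {X Y : Finset ℕ} (hX : y ∉ X) (h : insert y X ⊆ insert y Y) :
    X ⊆ Y := fun _ hx => by
  rcases Finset.mem_insert.1 (h (Finset.mem_insert_of_mem hx)) with h' | h'
  · exact absurd (h' ▸ hx) hX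
  · exact h'

lemma sub_of_sub_insert {y : ℕ} {X Y : Finset ℕ} (hX : y ∉ X) (h : X ⊆ insert y Y) :
    X ⊆ Y := fun _ hx => by
  rcases Finset.mem_insert.1 (h hx) with h' | h'
  · exact absurd (h' ▸ hx) hX
  · exact h'

/-- replacing the first peak does not matter for the last valley -/
lemma last_cons {a b : Pr} {t : List Pr} (hab : a.2 = b.2) {e : Finset ℕ}
    (h : ∀ p ∈ (b :: t).getLast?, p.2 = e) : ∀ p ∈ (a :: t).getLast?, p.2 = e := by
  intro p hp
  cases t with
  | nil =>
    simp only [List.getLast?_singleton, Option.mem_some_iff] at hp h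
    rw [← hp, hab]
    exact h b rfl
  | cons c t =>
    rw [List.getLast?_cons_cons] at hp h
    exact h p hp

lemma lev_step {i k : ℕ} {s0 e0 : Finset ℕ} {A : List Pr} (hA : Lev i (k + 1) s0 e0 A)
    (hne : A ≠ []) {p : Pr} (hp : p.2 ⊆ p.1 ∧ p.1 ⊆ Icc 1 i ∧ p.1.card = k + 1 ∧ p.2.card = k)
    (hps : p.1 = s0) :
    Lev (i + 1) (k + 1) (insert (i + 1) p.2) e0 (step (i + 1) A p) := by
  obtain ⟨h, t, rfl⟩ := List.exists_cons_of_ne_nil hne
  have hh : h = (s0, s0) := hA.head h (by simp)
  obtain ⟨hp1, hp2, hp3, hp4⟩ := hp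
  have hpw := List.pairwise_cons.1 hA.pw
  have hch := List.isChain_cons.1 hA.chain
  have hy1 : i + 1 ∉ p.1 := not_mem hp2
  have hy2 : i + 1 ∉ p.2 := not_mem (hp1.trans hp2)
  have hm := hA.mem
  have hh2 : h.2 = p.1 := by rw [hh, hps]
  have hh1 : h.1 = p.1 := by rw [hh, hps]
  show Lev (i + 1) (k + 1) (insert (i + 1) p.2) e0
    ((insert (i + 1) p.2, insert (i + 1) p.2) :: (insert (i + 1) p.1, h.2) :: t)
  refine ⟨?_, ?_, ?_, ?_, ?_⟩
  · intro q hq
    rcases List.mem_cons.1 hq with rfl | hq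
    · refine ⟨Finset.Subset.refl _, ins_sub (hp1.trans hp2), ?_, ?_⟩
      · simp only; rw [Finset.card_insert_of_notMem hy2]; omega
      · simp only; rw [Finset.card_insert_of_notMem hy2]; omega
    rcases List.mem_cons.1 hq with rfl | hq
    · refine ⟨?_, ins_sub hp2, ?_, ?_⟩
      · simp only; rw [hh2]; exact Finset.subset_insert _ _
      · simp only; rw [Finset.card_insert_of_notMem hy1]; omega
      · simp only; rw [hh2]; exact hp3
    · have := hm q (List.mem_cons_of_mem _ hq)
      exact ⟨this.1, this.2.1.trans (Icc_up i), this.2.2⟩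
  · rw [List.pairwise_cons, List.pairwise_cons]
    refine ⟨?_, ?_, hpw.2⟩
    · intro q hq
      have hc : q.2.card = k + 1 ∧ i + 1 ∉ q.2 := by
        rcases List.mem_cons.1 hq with rfl | hq
        · simp only; rw [hh2]; exact ⟨hp3, hy1⟩
        · have := hm q (List.mem_cons_of_mem _ hq)
          exact ⟨this.2.2.2, not_mem (this.1.trans this.2.1)⟩
      intro hsub
      have := Finset.card_le_card (sub_of_sub_insert hc.2 hsub)
      omega
    · intro q hq hsub
      have h1 := hm q (List.mem_cons_of_mem _ hq)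
      have h2 := sub_of_sub_insert (not_mem (h1.1.trans h1.2.1)) hsub
      exact hpw.1 q hq (by rw [hh1]; exact h2)
  · rw [List.isChain_cons_cons]
    refine ⟨Finset.insert_subset_insert _ hp1, ?_⟩
    rw [List.isChain_cons]
    exact ⟨fun q hq => hch.1 q hq, hch.2⟩
  · intro q hq
    simp only [List.head?_cons, Option.mem_some_iff] at hq
    exact hq.symm
  · rw [List.getLast?_cons_cons]
    exact last_cons (a := (insert (i + 1) p.1, h.2)) (b := h) rfl hA.last

lemma mem_map_ins {y : ℕ} {L : List Pr} {q : Pr} (h : q ∈ L.map (ins y)) :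
    ∃ r ∈ L, q.1 = insert y r.1 ∧ q.2 = insert y r.2 := by
  obtain ⟨r, hr, rfl⟩ := List.mem_map.1 h
  exact ⟨r, hr, rfl, rfl⟩

/-- end set after appending `y` times a list -/
def endA (y : ℕ) (e : Finset ℕ) (Lk : List Pr) : Finset ℕ :=
  match Lk.getLast? with
  | none => e
  | some p => insert y p.2

lemma lev_append {i k : ℕ} {s' e' : Finset ℕ} {A' Lk : List Pr} (hA : Lev (i + 1) (k + 1) s' e' A')
    (hL : ∀ p ∈ Lk, p.2 ⊆ p.1 ∧ p.1 ⊆ Icc 1 i ∧ p.1.card = k + 1 ∧ p.2.card = k)
    (hpw : Lk.Pairwise (fun p q => ¬ q.2 ⊆ p.1)) (hch : Lk.IsChain (fun p q => p.2 ⊆ q.1))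
    (hcr : ∀ q ∈ A', ∀ r ∈ Lk, ¬ insert (i + 1) r.2 ⊆ q.1)
    (hlink : ∀ p ∈ Lk.head?, e' ⊆ insert (i + 1) p.1) (hne : A' ≠ [] ∨ Lk = []) :
    Lev (i + 1) (k + 1) s' (endA (i + 1) e' Lk) (A' ++ Lk.map (ins (i + 1))) := by
  have hyv : ∀ p ∈ Lk, i + 1 ∉ p.2 := fun p hp => not_mem ((hL p hp).1.trans (hL p hp).2.1)
  refine ⟨?_, ?_, ?_, ?_, ?_⟩
  · intro q hq
    rcases List.mem_append.1 hq with hq | hq
    · exact hA.mem q hq
    · obtain ⟨r, hr, h1, h2⟩ := mem_map_ins hq
      obtain ⟨g1, g2, g3, g4⟩ := hL r hr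
      rw [h1, h2]
      refine ⟨Finset.insert_subset_insert _ g1, ins_sub g2, ?_, ?_⟩
      · rw [Finset.card_insert_of_notMem (not_mem g2)]; omega
      · rw [Finset.card_insert_of_notMem (hyv r hr)]; omega
  · rw [List.pairwise_append]
    refine ⟨hA.pw, ?_, ?_⟩
    · rw [List.pairwise_map]
      refine List.Pairwise.imp_of_mem (fun {a b} ha hb hab hsub => ?_) hpw
      exact hab (sub_of_insert_sub (hyv b hb) hsub)
    · intro a ha b hb
      obtain ⟨r, hr, h1, h2⟩ := mem_map_ins hb
      rw [h2]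
      exact hcr a ha r hr
  · rw [List.isChain_append]
    refine ⟨hA.chain, ?_, ?_⟩
    · rw [List.isChain_map]
      exact hch.imp fun a b hab => Finset.insert_subset_insert _ hab
    · intro a ha b hb
      rw [List.head?_map] at hb
      obtain ⟨p, hp, rfl⟩ := Option.map_eq_some_iff.1 hb
      rw [hA.last a ha]
      exact hlink p hp
  · intro p hp
    rcases hne with h | h
    · rw [List.head?_append_of_ne_nil _ h] at hp
      exact hA.head p hp
    · rw [h, List.map_nil, List.append_nil] at hp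
      exact hA.head p hp
  · intro p hp
    rw [List.getLast?_append, List.getLast?_map] at hp
    rw [endA]
    cases hl : Lk.getLast? with
    | none =>
      rw [hl] at hp
      simp only [Option.map_none, Option.none_or] at hp
      exact hA.last p hp
    | some r =>
      rw [hl] at hp
      simp only [Option.map_some, Option.some_or, Option.mem_some_iff] at hp
      rw [← hp]; rfl

/-- start set after a step -/
def startA (y : ℕ) (s : Finset ℕ) (Tk : List Pr) : Finset ℕ :=
  match Tk with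
  | [] => s
  | p :: _ => insert y p.2

lemma lev_join {i k : ℕ} {s0 e0 : Finset ℕ} {A Tk Lk : List Pr} (hA : Lev i (k + 1) s0 e0 A)
    (hTL : ∀ p ∈ Tk ++ Lk, p.2 ⊆ p.1 ∧ p.1 ⊆ Icc 1 i ∧ p.1.card = k + 1 ∧ p.2.card = k)
    (hpw : (Tk ++ Lk).Pairwise (fun p q => ¬ q.2 ⊆ p.1))
    (hch : Lk.IsChain (fun p q => p.2 ⊆ q.1)) (htl : Tk.length ≤ 1) (hs : ∀ p ∈ Tk, p.1 = s0)
    (he : ∀ p ∈ Lk.head?, e0 = p.1) (hne : A ≠ [] ∨ (Tk = [] ∧ Lk = [])) :
    Lev (i + 1) (k + 1) (startA (i + 1) s0 Tk) (endA (i + 1) e0 Lk)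
      (Tk.foldl (step (i + 1)) A ++ Lk.map (ins (i + 1))) := by
  have hL : ∀ p ∈ Lk, p.2 ⊆ p.1 ∧ p.1 ⊆ Icc 1 i ∧ p.1.card = k + 1 ∧ p.2.card = k :=
    fun p hp => hTL p (List.mem_append_right _ hp)
  rw [List.pairwise_append] at hpw
  have hlink : ∀ p ∈ Lk.head?, e0 ⊆ insert (i + 1) p.1 := by
    intro p hp
    rw [he p hp]; exact Finset.subset_insert _ _
  match Tk, hTL, hpw, htl, hs, hne with
  | [], hTL, hpw, htl, hs, hne =>
    refine lev_append hA.up hL hpw.2.1 hch ?_ hlink ?_
    · intro q hq r hr hsub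
      exact not_mem (hA.mem q hq).2.1 (hsub (Finset.mem_insert_self _ _))
    · rcases hne with h | h
      · left; exact h
      · right; exact h.2
  | [p], hTL, hpw, htl, hs, hne =>
    have hAne : A ≠ [] := by
      rcases hne with h | h
      · exact h
      · exact absurd h.1 (by simp)
    have hp := hTL p (by simp)
    have h1 := lev_step hA hAne hp (hs p (by simp))
    refine lev_append h1 hL hpw.2.1 hch ?_ hlink ?_
    · intro q hq r hr hsub
      have hr2 := hL r hr
      have hry : i + 1 ∉ r.2 := not_mem (hr2.1.trans hr2.2.1)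
      have hpr := hpw.2.2 p (by simp) r hr
      obtain ⟨h, t, rfl⟩ := List.exists_cons_of_ne_nil hAne
      have hq' : q ∈ (insert (i + 1) p.2, insert (i + 1) p.2) :: (insert (i + 1) p.1, h.2) :: t := hq
      rcases List.mem_cons.1 hq' with rfl | hq'
      · exact hpr ((sub_of_insert_sub hry hsub).trans hp.1)
      rcases List.mem_cons.1 hq' with rfl | hq'
      · exact hpr (sub_of_insert_sub hry hsub)
      · exact not_mem (hA.mem q (List.mem_cons_of_mem _ hq')).2.1
          (hsub (Finset.mem_insert_self _ _))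
    · left
      obtain ⟨h, t, rfl⟩ := List.exists_cons_of_ne_nil hAne
      exact List.cons_ne_nil _ _
  | _ :: _ :: _, hTL, hpw, htl, hs, hne => exact absurd htl (by simp)

lemma mem_step {y : ℕ} {A : List Pr} {r p : Pr} (h : p ∈ step y A r) :
    (p.1 = insert y r.2 ∧ p.2 = insert y r.2) ∨ (p.1 = insert y r.1 ∧ ∃ a ∈ A, p.2 = a.2) ∨
      p ∈ A := by
  cases A with
  | nil =>
    simp only [step, List.mem_singleton] at h
    left; rw [h]; exact ⟨rfl, rfl⟩
  | cons a t =>
    simp only [step, List.mem_cons] at h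
    rcases h with h | h | h
    · left; rw [h]; exact ⟨rfl, rfl⟩
    · right; left; rw [h]; exact ⟨rfl, a, by simp, rfl⟩
    · right; right; exact List.mem_cons_of_mem _ h

lemma length_step (y : ℕ) (A : List Pr) (r : Pr) : (step y A r).length = A.length + 1 := by
  cases A with
  | nil => simp [step]
  | cons a t => simp [step]

lemma length_foldl (y : ℕ) (Tk : List Pr) : ∀ A : List Pr,
    (Tk.foldl (step y) A).length = A.length + Tk.length := by
  induction Tk with
  | nil => intro A; simp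
  | cons r Tk ih =>
    intro A
    rw [List.foldl_cons, ih, length_step, List.length_cons]
    omega

lemma desc_foldl {y : ℕ} {Tk : List Pr} : ∀ {A : List Pr} {p : Pr}, p ∈ Tk.foldl (step y) A →
    ((∃ a ∈ A, p.1 = a.1) ∨ (∃ r ∈ Tk, p.1 = insert y r.1) ∨ (∃ r ∈ Tk, p.1 = insert y r.2)) ∧
    ((∃ a ∈ A, p.2 = a.2) ∨ (∃ r ∈ Tk, p.2 = insert y r.2)) := by
  induction Tk with
  | nil =>
    intro A p hp
    exact ⟨Or.inl ⟨p, hp, rfl⟩, Or.inl ⟨p, hp, rfl⟩⟩
  | cons r Tk ih =>
    intro A p hp
    rw [List.foldl_cons] at hp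
    obtain ⟨h1, h2⟩ := ih hp
    refine ⟨?_, ?_⟩
    · rcases h1 with ⟨a, ha, h⟩ | ⟨r', hr', h⟩ | ⟨r', hr', h⟩
      · rcases mem_step ha with h3 | h3 | h3
        · right; right; exact ⟨r, by simp, h.trans h3.1⟩
        · right; left; exact ⟨r, by simp, h.trans h3.1⟩
        · left; exact ⟨a, h3, h⟩
      · right; left; exact ⟨r', List.mem_cons_of_mem _ hr', h⟩
      · right; right; exact ⟨r', List.mem_cons_of_mem _ hr', h⟩
    · rcases h2 with ⟨a, ha, h⟩ | ⟨r', hr', h⟩
      · rcases mem_step ha with h3 | h3 | h3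
        · right; exact ⟨r, by simp, h.trans h3.2⟩
        · obtain ⟨a', ha', h4⟩ := h3.2
          left; exact ⟨a', ha', h.trans h4⟩
        · left; exact ⟨a, h3, h⟩
      · right; exact ⟨r', List.mem_cons_of_mem _ hr', h⟩

lemma desc_join {y : ℕ} {V T L : Fam} {k : ℕ} {p : Pr} (hp : p ∈ join y V T L (k + 1)) :
    ((∃ a ∈ V (k + 1), p.1 = a.1) ∨ (∃ r ∈ T k ++ L k, p.1 = insert y r.1) ∨
      (∃ r ∈ T k ++ L k, p.1 = insert y r.2)) ∧
    ((∃ a ∈ V (k + 1), p.2 = a.2) ∨ (∃ r ∈ T k ++ L k, p.2 = insert y r.2)) := by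
  rw [join, List.mem_append] at hp
  rcases hp with hp | hp
  · obtain ⟨h1, h2⟩ := desc_foldl hp
    refine ⟨?_, ?_⟩
    · rcases h1 with h | ⟨r, hr, h⟩ | ⟨r, hr, h⟩
      · exact Or.inl h
      · exact Or.inr (Or.inl ⟨r, List.mem_append_left _ hr, h⟩)
      · exact Or.inr (Or.inr ⟨r, List.mem_append_left _ hr, h⟩)
    · rcases h2 with h | ⟨r, hr, h⟩
      · exact Or.inl h
      · exact Or.inr ⟨r, List.mem_append_left _ hr, h⟩
  · obtain ⟨r, hr, h1, h2⟩ := mem_map_ins hp
    exact ⟨Or.inr (Or.inl ⟨r, List.mem_append_right _ hr, h1⟩),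
      Or.inr ⟨r, List.mem_append_right _ hr, h2⟩⟩

lemma insert_inj {y : ℕ} {X Y : Finset ℕ} (hX : y ∉ X) (hY : y ∉ Y) (h : insert y X = insert y Y) :
    X = Y := by
  rw [← Finset.erase_insert hX, h, Finset.erase_insert hY]

lemma cross_aux {i : ℕ} {s e : ℕ → Finset ℕ} {V : Fam} {b : List ℕ} {T L : Fam}
    (hV : VV i s e V) (hL : TPV b T L) (hb : b.toFinset = Icc 1 i) {k : ℕ} {X Q : Finset ℕ}
    (hX : (∃ a ∈ V k, X = a.1) ∨ (∃ k', k = k' + 1 ∧ ((∃ r ∈ T k' ++ L k', X = insert (i + 1) r.1) ∨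
      (∃ r ∈ T k' ++ L k', X = insert (i + 1) r.2))))
    (hQ : (∃ a ∈ V (k + 1), Q = a.2) ∨ (∃ r ∈ T k ++ L k, Q = insert (i + 1) r.2)) : Q ≠ X := by
  have hm : ∀ l, ∀ r ∈ T l ++ L l, r.2 ⊆ r.1 ∧ r.1 ⊆ Icc 1 i ∧ r.1.card = l + 1 ∧ r.2.card = l := by
    intro l r hr
    have := hL.mem l r hr
    rwa [hb] at this
  have hQc : Q.card = k + 1 := by
    rcases hQ with ⟨a, ha, rfl⟩ | ⟨r, hr, rfl⟩
    · exact (hV.mem _ a ha).2.2.2
    · have := hm k r hr
      rw [Finset.card_insert_of_notMem (not_mem (this.1.trans this.2.1)), this.2.2.2]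
  intro hQX
  rcases hX with ⟨a, ha, hXa⟩ | ⟨k', rfl, ⟨r, hr, hXr⟩ | ⟨r, hr, hXr⟩⟩
  · have ha' := hV.mem _ a ha
    rcases hQ with ⟨a', ha2, hQa⟩ | ⟨r', hr', hQr⟩
    · exact hV.cross k a ha a' ha2 (by rw [← hQa, hQX, hXa])
    · apply not_mem ha'.2.1
      rw [← hXa, ← hQX, hQr]
      exact Finset.mem_insert_self _ _
  · have hr2 := hm k' r hr
    rcases hQ with ⟨a', ha2, hQa⟩ | ⟨r', hr', hQr⟩
    · have ha' := hV.mem _ a' ha2
      apply not_mem (ha'.1.trans ha'.2.1)
      rw [← hQa, hQX, hXr]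
      exact Finset.mem_insert_self _ _
    · have hr3 := hm _ r' hr'
      apply hL.cross k' r hr r' hr'
      exact insert_inj (not_mem (hr3.1.trans hr3.2.1)) (not_mem hr2.2.1) (by rw [← hQr, hQX, hXr])
  · have hr2 := hm k' r hr
    have : X.card = k' + 1 := by
      rw [hXr, Finset.card_insert_of_notMem (not_mem (hr2.1.trans hr2.2.1)), hr2.2.2.2]
    rw [hQX, this] at hQc
    omega

section
variable {i : ℕ} {s e : ℕ → Finset ℕ} {V : Fam} {b : List ℕ} {T L : Fam}

lemma tl_nil (hL : TPV b T L) (hb : b.toFinset = Icc 1 i) {k : ℕ} (hk : i ≤ k) (hi : 1 ≤ i) :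
    T k = [] ∧ L k = [] := by
  have h1 : b.length = i := by
    rw [← List.toFinset_card_of_nodup hL.nd, hb, Nat.card_Icc]; omega
  have h2 := hL.len k
  rw [h1, Nat.choose_eq_zero_of_lt (by omega)] at h2
  exact ⟨List.eq_nil_of_length_eq_zero (by omega), List.eq_nil_of_length_eq_zero (by omega)⟩

lemma tl_len (hL : TPV b T L) (hb : b.toFinset = Icc 1 i) (k : ℕ) :
    (T k).length + (L k).length = (i - 1).choose k := by
  have h1 : b.length = i := by
    rw [← List.toFinset_card_of_nodup hL.nd, hb, Nat.card_Icc]; omega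
  rw [← h1]; exact hL.len k

lemma tl_mem (hL : TPV b T L) (hb : b.toFinset = Icc 1 i) (k : ℕ) : ∀ p ∈ T k ++ L k,
    p.2 ⊆ p.1 ∧ p.1 ⊆ Icc 1 i ∧ p.1.card = k + 1 ∧ p.2.card = k := by
  intro p hp
  have := hL.mem k p hp
  rwa [hb] at this

lemma lev_join_level (hV : VV i s e V) (hL : TPV b T L) (hb : b.toFinset = Icc 1 i) {k : ℕ}
    (hs : ∀ p ∈ T k, p.1 = s (k + 1)) (he : L k ≠ [] → e (k + 1) = (b.take (k + 1)).toFinset)
    (hne : V (k + 1) ≠ [] ∨ (T k = [] ∧ L k = [])) :
    Lev (i + 1) (k + 1) (joinS (i + 1) s T (k + 1)) (joinE (i + 1) e L (k + 1))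
      (join (i + 1) V T L (k + 1)) := by
  have h := lev_join (lev_of hV (k + 1)) (tl_mem hL hb k) (hL.pw k) (hL.chain k) (hL.tlen k) hs
    (fun p hp => (he (by rintro h0; rw [h0] at hp; simp at hp)).trans (hL.head k p hp).symm) hne
  have e1 : joinS (i + 1) s T (k + 1) = startA (i + 1) (s (k + 1)) (T k) := by
    rw [joinS]; cases T k <;> rfl
  have e2 : joinE (i + 1) e L (k + 1) = endA (i + 1) (e (k + 1)) (L k) := by
    rw [joinE, endA]; cases (L k).getLast? <;> rfl
  rw [e1, e2]
  exact h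

lemma lev_join_zero (hV : VV i s e V) : Lev (i + 1) 0 (joinS (i + 1) s T 0) (joinE (i + 1) e L 0)
    (join (i + 1) V T L 0) := (lev_of hV 0).up

lemma join_length (V T L : Fam) (y k : ℕ) : (join y V T L (k + 1)).length =
    (V (k + 1)).length + ((T k).length + (L k).length) := by
  rw [join, List.length_append, length_foldl, List.length_map]; omega

lemma descX {k : ℕ} {p : Pr} (hp : p ∈ join (i + 1) V T L k) :
    (∃ a ∈ V k, p.1 = a.1) ∨ (∃ k', k = k' + 1 ∧ ((∃ r ∈ T k' ++ L k', p.1 = insert (i + 1) r.1) ∨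
      (∃ r ∈ T k' ++ L k', p.1 = insert (i + 1) r.2))) := by
  cases k with
  | zero => exact Or.inl ⟨p, hp, rfl⟩
  | succ k =>
    rcases (desc_join hp).1 with h | h | h
    · exact Or.inl h
    · exact Or.inr ⟨k, rfl, Or.inl h⟩
    · exact Or.inr ⟨k, rfl, Or.inr h⟩

lemma join_cross (hV : VV i s e V) (hL : TPV b T L) (hb : b.toFinset = Icc 1 i) (k : ℕ) :
    ∀ p ∈ join (i + 1) V T L k, ∀ q ∈ join (i + 1) V T L (k + 1), q.2 ≠ p.1 :=
  fun _ hp _ hq => cross_aux hV hL hb (descX hp) (desc_join hq).2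

end

lemma next_of_dropLast : ∀ {M : List Pr}, M.IsChain (fun p q => p.2 ⊆ q.1) →
    M.Pairwise (fun p q => ¬ q.2 ⊆ p.1) → ∀ a ∈ M.dropLast, ∃ b ∈ M, a.2 ⊆ b.1 ∧ ¬ b.2 ⊆ a.1
  | [], _, _, a, ha => absurd ha (by simp)
  | [x], _, _, a, ha => absurd ha (by simp)
  | x :: z :: t, hc, hp, a, ha => by
    rw [List.dropLast_cons_of_ne_nil (List.cons_ne_nil z t)] at ha
    rcases List.mem_cons.1 ha with rfl | ha
    · exact ⟨z, by simp, (List.isChain_cons_cons.1 hc).1, (List.pairwise_cons.1 hp).1 z (by simp)⟩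
    · obtain ⟨b, hb, h1, h2⟩ := next_of_dropLast (List.isChain_cons_cons.1 hc).2
        (List.pairwise_cons.1 hp).2 a ha
      exact ⟨b, List.mem_cons_of_mem _ hb, h1, h2⟩

/-- three different subsets of size `i - 1` of `{1, …, i}` have at most `i - 3` common elements -/
lemma three {i : ℕ} {A B C X : Finset ℕ} (hi : 1 ≤ i) (hA : A ⊆ Icc 1 i) (hB : B ⊆ Icc 1 i)
    (hC : C ⊆ Icc 1 i) (cA : A.card = i - 1) (cB : B.card = i - 1) (cC : C.card = i - 1)
    (hAB : A ≠ B) (hAC : A ≠ C) (hBC : B ≠ C) (XA : X ⊆ A) (XB : X ⊆ B) (XC : X ⊆ C) :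
    X.card + 3 ≤ i := by
  have key : ∀ D : Finset ℕ, D ⊆ Icc 1 i → D.card = i - 1 → ∃ d, Icc 1 i \ D = {d} := by
    intro D hD cD
    apply Finset.card_eq_one.1
    rw [Finset.card_sdiff_of_subset hD, cD, Nat.card_Icc]; omega
  have inj : ∀ D E : Finset ℕ, D ⊆ Icc 1 i → E ⊆ Icc 1 i → ∀ d e', Icc 1 i \ D = {d} →
      Icc 1 i \ E = {e'} → D ≠ E → d ≠ e' := by
    intro D E hD hE d e' h1 h2 hne he
    apply hne
    rw [← Finset.sdiff_sdiff_eq_self hD, ← Finset.sdiff_sdiff_eq_self hE, h1, h2, he]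
  obtain ⟨a, ha⟩ := key A hA cA
  obtain ⟨b, hb⟩ := key B hB cB
  obtain ⟨c, hc⟩ := key C hC cC
  have ab := inj A B hA hB a b ha hb hAB
  have ac := inj A C hA hC a c ha hc hAC
  have bc := inj B C hB hC b c hb hc hBC
  have ma : a ∈ Icc 1 i \ A := by rw [ha]; simp
  have mb : b ∈ Icc 1 i \ B := by rw [hb]; simp
  have mc : c ∈ Icc 1 i \ C := by rw [hc]; simp
  rw [Finset.mem_sdiff] at ma mb mc
  have h3 : ({a, b, c} : Finset ℕ).card = 3 := Finset.card_eq_three.2 ⟨a, b, c, ab, ac, bc, rfl⟩
  have hd : Disjoint X ({a, b, c} : Finset ℕ) := by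
    rw [Finset.disjoint_right]
    intro x hx hxX
    simp only [Finset.mem_insert, Finset.mem_singleton] at hx
    rcases hx with rfl | rfl | rfl
    · exact ma.2 (XA hxX)
    · exact mb.2 (XB hxX)
    · exact mc.2 (XC hxX)
  have hsub : X ∪ ({a, b, c} : Finset ℕ) ⊆ Icc 1 i := by
    apply Finset.union_subset (XA.trans hA)
    intro x hx
    simp only [Finset.mem_insert, Finset.mem_singleton] at hx
    rcases hx with rfl | rfl | rfl
    · exact ma.1
    · exact mb.1
    · exact mc.1
  have := Finset.card_le_card hsub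
  rw [Finset.card_union_of_disjoint hd, h3, Nat.card_Icc] at this
  omega

lemma lev_rev {i : ℕ} (hi : 3 ≤ i) {S0 : Finset ℕ} (hS : S0 ⊆ Icc 1 i) (hSc : S0.card = i - 1) :
    ∀ M : List Pr, (∀ p ∈ M, p.2 ⊆ p.1 ∧ p.1 ⊆ Icc 1 i ∧ p.1.card = i - 1 ∧ p.2.card = i - 2) →
      M.Pairwise (fun p q => ¬ q.2 ⊆ p.1) → M.IsChain (fun p q => p.2 ⊆ q.1) →
      (∀ p ∈ M.head?, p.1 = S0) →
      (M.foldl (step (i + 1)) [(S0, S0)] ≠ [] ∧
        Lev (i + 1) (i - 1) (endA (i + 1) S0 M) S0 (M.foldl (step (i + 1)) [(S0, S0)]) ∧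
        (∀ q ∈ M.foldl (step (i + 1)) [(S0, S0)], q.2 = S0 ∨ ∃ a ∈ M, q.2 = insert (i + 1) a.2) ∧
        (∀ q ∈ (M.foldl (step (i + 1)) [(S0, S0)]).tail, (q.2 = S0 ∧ M ≠ []) ∨
          ∃ a ∈ M.dropLast, q.2 = insert (i + 1) a.2)) := by
  intro M
  induction M using List.reverseRecOn with
  | nil =>
    intro _ _ _ _
    refine ⟨by simp, ⟨?_, by simp, by simp, ?_, ?_⟩, ?_, ?_⟩
    · intro p hp
      simp only [List.foldl_nil, List.mem_singleton] at hp
      subst hp
      exact ⟨Finset.Subset.refl _, hS.trans (Icc_up i), by simp only; omega, hSc⟩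
    · intro p hp
      simp only [List.foldl_nil, List.head?_cons, Option.mem_some_iff] at hp
      exact hp.symm
    · intro p hp
      simp only [List.foldl_nil, List.getLast?_singleton, Option.mem_some_iff] at hp
      rw [← hp]
    · intro q hq
      simp only [List.foldl_nil, List.mem_singleton] at hq
      left; rw [hq]
    · intro q hq
      simp only [List.foldl_nil, List.tail_cons, List.not_mem_nil] at hq
  | append_singleton M r ih =>
    intro hm hpw hch hh
    have hpw' := List.pairwise_append.1 hpw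
    have hch' := List.isChain_append.1 hch
    obtain ⟨h1, h2, h3, h4⟩ := ih (fun p hp => hm p (List.mem_append_left _ hp)) hpw'.1 hch'.1
      (by
        intro p hp
        apply hh
        cases M with
        | nil => simp at hp
        | cons a t => simpa using hp)
    have hmr := hm r (by simp)
    obtain ⟨r1, r2, r3, r4⟩ := hmr
    have hyr1 : i + 1 ∉ r.1 := not_mem r2
    have hyr2 : i + 1 ∉ r.2 := not_mem (r1.trans r2)
    have hMr : ∀ a ∈ M, ¬ r.2 ⊆ a.1 := fun a ha => hpw'.2.2 a ha r (by simp)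
    rw [List.foldl_append, List.foldl_cons, List.foldl_nil]
    generalize M.foldl (step (i + 1)) [(S0, S0)] = acc at h1 h2 h3 h4
    obtain ⟨h, t, rfl⟩ := List.exists_cons_of_ne_nil h1
    have hh' : h = (endA (i + 1) S0 M, endA (i + 1) S0 M) := h2.head h (by simp)
    have hh2 : h.2 = endA (i + 1) S0 M := by rw [hh']
    have hst : step (i + 1) (h :: t) r =
      (insert (i + 1) r.2, insert (i + 1) r.2) :: (insert (i + 1) r.1, h.2) :: t := rfl
    have c0 : h.2 ⊆ insert (i + 1) r.1 := by
      rw [hh2, endA]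
      cases hl : M.getLast? with
      | none =>
        have hM : M = [] := List.getLast?_eq_none_iff.1 hl
        subst hM
        have := hh r (by simp)
        rw [this]
        exact Finset.subset_insert _ _
      | some p =>
        exact Finset.insert_subset_insert _ (hch'.2.2 p hl r (by simp))
    have c1 : ∀ q ∈ h :: t, ¬ q.2 ⊆ insert (i + 1) r.2 := by
      intro q hq hsub
      rcases h3 q hq with h5 | ⟨a, ha, h5⟩
      · rw [h5] at hsub
        have := Finset.card_le_card (sub_of_sub_insert (not_mem hS) hsub)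
        omega
      · rw [h5] at hsub
        have ha' := hm a (List.mem_append_left _ ha)
        have hs' := sub_of_insert_sub (not_mem (ha'.1.trans ha'.2.1)) hsub
        have he := Finset.eq_of_subset_of_card_le hs' (by omega)
        exact hMr a ha (he ▸ ha'.1)
    have c2 : ∀ q ∈ t, ¬ q.2 ⊆ insert (i + 1) r.1 := by
      intro q hq hsub
      rcases h4 q hq with ⟨h5, h6⟩ | ⟨a, ha, h5⟩
      · rw [h5] at hsub
        have hs' := sub_of_sub_insert (not_mem hS) hsub
        have he := Finset.eq_of_subset_of_card_le hs' (by omega)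
        obtain ⟨a, t', rfl⟩ := List.exists_cons_of_ne_nil h6
        have ha1 := hh a (by simp)
        exact hMr a (by simp) (by rw [ha1, he]; exact r1)
      · have haM : a ∈ M := List.mem_of_mem_dropLast ha
        rw [h5] at hsub
        have ha' := hm a (List.mem_append_left _ haM)
        have hs' := sub_of_insert_sub (not_mem (ha'.1.trans ha'.2.1)) hsub
        obtain ⟨b, hb, hb1, hb2⟩ := next_of_dropLast hch'.1 hpw'.1 a ha
        have hb' := hm b (List.mem_append_left _ hb)
        have h7 := three (by omega) ha'.2.1 hb'.2.1 r2 ha'.2.2.1 hb'.2.2.1 r3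
          (fun h => hb2 (h ▸ hb'.1)) (fun h => hMr a haM (h ▸ r1)) (fun h => hMr b hb (h ▸ r1))
          ha'.1 hb1 hs'
        omega
    have hlev := h2
    have hpwA := List.pairwise_cons.1 hlev.pw
    have hchA := List.isChain_cons.1 hlev.chain
    have hendr : endA (i + 1) S0 (M ++ [r]) = insert (i + 1) r.2 := by
      rw [endA, List.getLast?_append]; simp
    rw [hst]
    refine ⟨by simp, ⟨?_, ?_, ?_, ?_, ?_⟩, ?_, ?_⟩
    · intro q hq
      rcases List.mem_cons.1 hq with rfl | hq
      · refine ⟨Finset.Subset.refl _, ins_sub (r1.trans r2), ?_, ?_⟩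
        · simp only; rw [Finset.card_insert_of_notMem hyr2]; omega
        · simp only; rw [Finset.card_insert_of_notMem hyr2]; omega
      rcases List.mem_cons.1 hq with rfl | hq
      · refine ⟨c0, ins_sub r2, ?_, ?_⟩
        · simp only; rw [Finset.card_insert_of_notMem hyr1]; omega
        · exact (hlev.mem h (by simp)).2.2.2
      · exact hlev.mem q (List.mem_cons_of_mem _ hq)
    · rw [List.pairwise_cons, List.pairwise_cons]
      refine ⟨?_, fun q hq => c2 q hq, hpwA.2⟩
      intro q hq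
      rcases List.mem_cons.1 hq with rfl | hq
      · exact c1 h (by simp)
      · exact c1 q (List.mem_cons_of_mem _ hq)
    · rw [List.isChain_cons_cons]
      refine ⟨Finset.insert_subset_insert _ r1, ?_⟩
      rw [List.isChain_cons]
      exact ⟨fun q hq => hchA.1 q hq, hchA.2⟩
    · intro q hq
      simp only [List.head?_cons, Option.mem_some_iff] at hq
      rw [hendr]; exact hq.symm
    · rw [List.getLast?_cons_cons]
      exact last_cons (a := (insert (i + 1) r.1, h.2)) (b := h) rfl hlev.last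
    · intro q hq
      rcases List.mem_cons.1 hq with rfl | hq
      · right; exact ⟨r, by simp, rfl⟩
      rcases List.mem_cons.1 hq with rfl | hq
      · rcases h3 h (by simp) with h5 | ⟨a, ha, h5⟩
        · left; exact h5
        · right; exact ⟨a, List.mem_append_left _ ha, h5⟩
      · rcases h3 q (List.mem_cons_of_mem _ hq) with h5 | ⟨a, ha, h5⟩
        · left; exact h5
        · right; exact ⟨a, List.mem_append_left _ ha, h5⟩
    · intro q hq
      rw [List.tail_cons] at hq
      rw [List.dropLast_concat]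
      rcases List.mem_cons.1 hq with rfl | hq
      · rcases h3 h (by simp) with h5 | ⟨a, ha, h5⟩
        · left; exact ⟨h5, by simp⟩
        · right; exact ⟨a, ha, h5⟩
      · rcases h3 q (List.mem_cons_of_mem _ hq) with h5 | ⟨a, ha, h5⟩
        · left; exact ⟨h5, by simp⟩
        · right; exact ⟨a, ha, h5⟩

end J1

open J1

theorem VV.join_odd {i y : ℕ} {s e : ℕ → Finset ℕ} {V : Fam} {b : List ℕ} {T L : Fam}
    (hi : i % 2 = 1) (hy : y = i + 1) (hV : VV i s e V) (hL : TPV b T L)
    (hb : b.toFinset = Icc 1 i)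
    (hs : ∀ k, ∀ p ∈ T k, p.1 = s (k + 1))
    (he : ∀ k, L k ≠ [] → e (k + 1) = (b.take (k + 1)).toFinset) :
    VV (i + 1) (joinS y s T) (joinE y e L) (join y V T L) := by
  subst hy
  have hi1 : 1 ≤ i := by omega
  refine vv_of ?_ (join_cross hV hL hb) ?_ ?_
  · intro k
    cases k with
    | zero => exact lev_join_zero hV
    | succ k =>
      refine lev_join_level hV hL hb (hs k) (he k) ?_
      rcases Nat.lt_or_ge k i with h | h
      · left
        intro h0
        have h1 := hV.len (k + 1) h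
        rw [h0, List.length_nil] at h1
        rcases Nat.lt_or_ge (k + 1) i with h2 | h2
        · have := Nat.choose_pos (n := i - 1) (k := k + 1) (by omega)
          omega
        · have : k + 1 = i := by omega
          rw [this] at h1
          omega
      · right; exact tl_nil hL hb h hi1
  · intro k hk
    cases k with
    | zero =>
      have := hV.len 0 (by omega)
      simpa [join] using this
    | succ k =>
      rw [join_length, tl_len hL hb]
      have e1 : i + 1 - 1 = (i - 1) + 1 := by omega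
      rw [e1, Nat.choose_succ_succ']
      rcases Nat.lt_or_ge k i with h | h
      · rw [hV.len (k + 1) h]; omega
      · have : k = i := by omega
        subst this
        rw [hV.none (k + 1) (by omega), Nat.choose_eq_zero_of_lt (show k - 1 < k by omega),
          Nat.choose_eq_zero_of_lt (show k - 1 < k + 1 by omega)]
        simp only [List.length_nil]
        omega
  · intro k hk
    cases k with
    | zero => omega
    | succ k =>
      obtain ⟨h1, h2⟩ := tl_nil hL hb (show i ≤ k by omega) hi1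
      rw [join, h1, h2, hV.none (k + 1) (by omega)]
      rfl

theorem VV.join_even {i y : ℕ} {s e : ℕ → Finset ℕ} {V : Fam} {b : List ℕ} {T L : Fam}
    (hi : i % 2 = 0) (hi2 : 2 ≤ i) (hy : y = i + 1) (hV : VV i s e V) (hL : TPV b T L)
    (hb : b.toFinset = Icc 1 i)
    (hs : ∀ k, ∀ p ∈ T k, p.1 = s (k + 1)) (hT : T (i - 1) = [])
    (he : ∀ k, k + 1 < i → L k ≠ [] → e (k + 1) = (b.take (k + 1)).toFinset) :
    VV (i + 1) (topS i y L (joinS y s T)) (topE i (joinE y e L))
      (topMod i y L (join y V T L)) := by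
  subst hy
  have hi1 : 1 ≤ i := by omega
  -- the top level of `L`
  have hlen1 : (L (i - 1)).length = 1 := by
    have := tl_len hL hb (i - 1)
    rw [hT, Nat.choose_self] at this
    simpa using this
  obtain ⟨⟨U, B⟩, hUB⟩ := List.length_eq_one_iff.1 hlen1
  have hUBm := tl_mem hL hb (i - 1) (U, B) (by rw [hUB]; simp)
  simp only at hUBm
  obtain ⟨hm1, hm2, hm3, hm4⟩ := hUBm
  have hyB : i + 1 ∉ B := not_mem (hm1.trans hm2)
  have hBc : (insert (i + 1) B).card = i := by
    rw [Finset.card_insert_of_notMem hyB, hm4]; omega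
  have hVi : V i = [] := by
    have := hV.len i le_rfl
    rw [Nat.choose_eq_zero_of_lt (by omega), hi] at this
    exact List.eq_nil_of_length_eq_zero this
  -- values of the modified families
  have M1 : topMod i (i + 1) L (join (i + 1) V T L) i = [(insert (i + 1) B, insert (i + 1) B)] := by
    rw [topMod, if_pos rfl, hUB]; rfl
  have M2 : topMod i (i + 1) L (join (i + 1) V T L) (i + 1) = [(Icc 1 (i + 1), Icc 1 (i + 1))] := by
    rw [topMod, if_neg (by omega), if_pos rfl]
  have M3 : ∀ k, k ≠ i → k ≠ i + 1 → topMod i (i + 1) L (join (i + 1) V T L) k =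
      join (i + 1) V T L k := by
    intro k h1 h2
    rw [topMod, if_neg h1, if_neg h2]
  have M4 : ∀ k, i + 1 < k → join (i + 1) V T L k = [] := by
    intro k hk
    cases k with
    | zero => omega
    | succ k =>
      obtain ⟨h1, h2⟩ := tl_nil hL hb (show i ≤ k by omega) hi1
      rw [join, h1, h2, hV.none (k + 1) (by omega)]
      rfl
  refine vv_of ?_ ?_ ?_ ?_
  · intro k
    by_cases k1 : k = i
    · subst k1
      rw [M1]
      have e1 : topS k (k + 1) L (joinS (k + 1) s T) k = insert (k + 1) B := by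
        simp only [topS, if_true, hUB]
      have e2 : topE k (joinE (k + 1) e L) k = insert (k + 1) B := by
        rw [topE, if_neg (by omega)]
        obtain ⟨j, rfl⟩ := Nat.exists_eq_add_of_le' hi1
        rw [joinE]
        simp only [Nat.add_sub_cancel] at hUB
        rw [hUB]; rfl
      rw [e1, e2]
      refine ⟨?_, by simp, by simp, ?_, ?_⟩
      · intro p hp
        rw [List.mem_singleton] at hp
        subst hp
        exact ⟨Finset.Subset.refl _, ins_sub (hm1.trans hm2), by simp only; omega, hBc⟩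
      · intro p hp
        simp only [List.head?_cons, Option.mem_some_iff] at hp
        exact hp.symm
      · intro p hp
        simp only [List.getLast?_singleton, Option.mem_some_iff] at hp
        rw [← hp]
    by_cases k2 : k = i + 1
    · subst k2
      rw [M2]
      have e1 : topS i (i + 1) L (joinS (i + 1) s T) (i + 1) = Icc 1 (i + 1) := by
        simp [topS]
      have e2 : topE i (joinE (i + 1) e L) (i + 1) = Icc 1 (i + 1) := by
        simp [topE]
      rw [e1, e2]
      refine ⟨?_, by simp, by simp, ?_, ?_⟩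
      · intro p hp
        rw [List.mem_singleton] at hp
        subst hp
        refine ⟨Finset.Subset.refl _, Finset.Subset.refl _, ?_, ?_⟩ <;> simp
      · intro p hp
        simp only [List.head?_cons, Option.mem_some_iff] at hp
        exact hp.symm
      · intro p hp
        simp only [List.getLast?_singleton, Option.mem_some_iff] at hp
        rw [← hp]
    rw [M3 k k1 k2]
    have e1 : topS i (i + 1) L (joinS (i + 1) s T) k = joinS (i + 1) s T k := by
      simp [topS, k1, k2]
    have e2 : topE i (joinE (i + 1) e L) k = joinE (i + 1) e L k := by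
      simp [topE, k2]
    rw [e1, e2]
    cases k with
    | zero => exact lev_join_zero hV
    | succ k =>
      rcases Nat.lt_or_ge (k + 1) i with h | h
      · refine lev_join_level hV hL hb (hs k) (he k h) ?_
        left
        intro h0
        have h1 := hV.len (k + 1) h.le
        rw [h0, List.length_nil] at h1
        have := Nat.choose_pos (n := i - 1) (k := k + 1) (by omega)
        omega
      · rw [M4 (k + 1) (by omega)]
        exact lev_nil
  · intro k p hp q hq
    by_cases k1 : k = i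
    · subst k1
      rw [M1, List.mem_singleton] at hp
      rw [M2, List.mem_singleton] at hq
      rw [hp, hq]
      intro h
      have := congrArg Finset.card h
      rw [hBc, Nat.card_Icc] at this
      omega
    by_cases k2 : k = i + 1
    · subst k2
      rw [M3 _ (by omega) (by omega), M4 _ (by omega)] at hq
      exact absurd hq (by simp)
    rw [M3 k k1 k2] at hp
    by_cases k3 : k + 1 = i
    · subst k3
      rw [M1, List.mem_singleton] at hq
      refine cross_aux hV hL hb (descX hp) (Or.inr ⟨(U, B), ?_, ?_⟩)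
      · have : k + 1 - 1 = k := by omega
        rw [this] at hUB
        rw [hUB]; simp
      · rw [hq]
    · rw [M3 (k + 1) k3 (by omega)] at hq
      exact join_cross hV hL hb k p hp q hq
  · intro k hk
    have e0 : i + 1 - 1 = i := by omega
    rw [e0]
    by_cases k1 : k = i
    · subst k1
      rw [M1, Nat.choose_self, hi]; rfl
    by_cases k2 : k = i + 1
    · subst k2
      rw [M2, Nat.choose_eq_zero_of_lt (by omega)]
      simp only [List.length_singleton]
      omega
    rw [M3 k k1 k2]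
    cases k with
    | zero =>
      have := hV.len 0 (by omega)
      simpa [join] using this
    | succ k =>
      rw [join_length, tl_len hL hb, hV.len (k + 1) (by omega)]
      obtain ⟨j, rfl⟩ := Nat.exists_eq_add_of_le' hi1
      rw [Nat.choose_succ_succ' j k, Nat.add_sub_cancel]
      omega
  · intro k hk
    rw [M3 k (by omega) (by omega), M4 k hk]

theorem VV.join_rev {i y : ℕ} {s e : ℕ → Finset ℕ} {V : Fam} {b : List ℕ} {T L : Fam}
    (hi : i % 2 = 1) (hi2 : 5 ≤ i) (hy : y = i + 1) (hV : VV i s e V) (hL : TPV b T L)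
    (hb : b.toFinset = Icc 1 i)
    (hs : ∀ k, ∀ p ∈ T k, p.1 = s (k + 1)) (hT : T (i - 2) = [])
    (hs2 : ∀ p ∈ (L (i - 2)).head?, p.1 = s (i - 1))
    (he : ∀ k, k ≠ i - 2 → L k ≠ [] → e (k + 1) = (b.take (k + 1)).toFinset) :
    VV (i + 1) (revS i y L (joinS y s T)) (revE i e (joinE y e L))
      (revMod i y V L (join y V T L)) := by
  subst hy
  have hi1 : 1 ≤ i := by omega
  -- the level `i - 1` of `V` is a single pair
  have hVl : (V (i - 1)).length = 1 := by
    rw [hV.len (i - 1) (by omega), Nat.choose_self]; omega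
  obtain ⟨v, hv⟩ := List.length_eq_one_iff.1 hVl
  have hv' : v = (s (i - 1), s (i - 1)) := hV.head (i - 1) v (by rw [hv]; simp)
  subst hv'
  have hvm := hV.mem (i - 1) (s (i - 1), s (i - 1)) (by rw [hv]; simp)
  simp only at hvm
  have hvl : s (i - 1) = e (i - 1) :=
    hV.last (i - 1) (s (i - 1), s (i - 1)) (by rw [hv]; simp)
  have e12 : i - 2 + 1 = i - 1 := by omega
  have hLm : ∀ p ∈ L (i - 2), p.2 ⊆ p.1 ∧ p.1 ⊆ Icc 1 i ∧ p.1.card = i - 1 ∧ p.2.card = i - 2 := by
    intro p hp
    have := tl_mem hL hb (i - 2) p (List.mem_append_right _ hp)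
    rwa [e12] at this
  have hLlen : (L (i - 2)).length = i - 1 := by
    have := tl_len hL hb (i - 2)
    rw [hT, List.length_nil, Nat.zero_add] at this
    rw [this]
    have : i - 1 = (i - 2) + 1 := by omega
    rw [this, Nat.choose_succ_self_right]
  have hLne : L (i - 2) ≠ [] := by
    intro h; rw [h] at hLlen; simp at hLlen; omega
  have hpwL : (L (i - 2)).Pairwise (fun p q => ¬ q.2 ⊆ p.1) := by
    have := hL.pw (i - 2)
    rwa [hT, List.nil_append] at this
  have hrev := lev_rev (i := i) (by omega) (S0 := s (i - 1)) (hvm.1.trans hvm.2.1) hvm.2.2.2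
    (L (i - 2)) hLm hpwL (hL.chain (i - 2)) hs2
  -- values of the modified family
  have M1 : revMod i (i + 1) V L (join (i + 1) V T L) (i - 1) =
      (L (i - 2)).foldl (step (i + 1)) [(s (i - 1), s (i - 1))] := by
    rw [revMod, if_pos rfl, hv]
  have M2 : ∀ k, k ≠ i - 1 → revMod i (i + 1) V L (join (i + 1) V T L) k =
      join (i + 1) V T L k := by
    intro k h1
    rw [revMod, if_neg h1]
  have hX : ∀ p ∈ revMod i (i + 1) V L (join (i + 1) V T L) (i - 1),
      ((∃ a ∈ V (i - 1), p.1 = a.1) ∨ (∃ k', i - 1 = k' + 1 ∧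
        ((∃ r ∈ T k' ++ L k', p.1 = insert (i + 1) r.1) ∨
        (∃ r ∈ T k' ++ L k', p.1 = insert (i + 1) r.2)))) ∧
      ((∃ a ∈ V (i - 1), p.2 = a.2) ∨ (∃ r ∈ T (i - 2) ++ L (i - 2), p.2 = insert (i + 1) r.2)) := by
    intro p hp
    rw [revMod, if_pos rfl] at hp
    obtain ⟨h1, h2⟩ := desc_foldl hp
    refine ⟨?_, ?_⟩
    · rcases h1 with h | ⟨r, hr, h⟩ | ⟨r, hr, h⟩
      · exact Or.inl h
      · exact Or.inr ⟨i - 2, e12.symm, Or.inl ⟨r, List.mem_append_right _ hr, h⟩⟩
      · exact Or.inr ⟨i - 2, e12.symm, Or.inr ⟨r, List.mem_append_right _ hr, h⟩⟩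
    · rcases h2 with h | ⟨r, hr, h⟩
      · exact Or.inl h
      · exact Or.inr ⟨r, List.mem_append_right _ hr, h⟩
  refine vv_of ?_ ?_ ?_ ?_
  · intro k
    by_cases k1 : k = i - 1
    · subst k1
      have e1 : revS i (i + 1) L (joinS (i + 1) s T) (i - 1) = endA (i + 1) (s (i - 1)) (L (i - 2)) := by
        rw [revS, if_pos rfl, endA]
        cases hl : (L (i - 2)).getLast? with
        | none => exact absurd (List.getLast?_eq_none_iff.1 hl) hLne
        | some p => rfl
      have e2 : revE i e (joinE (i + 1) e L) (i - 1) = s (i - 1) := by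
        rw [revE, if_pos rfl, hvl]
      rw [e1, e2, M1]
      exact hrev.2.1
    have e1 : revS i (i + 1) L (joinS (i + 1) s T) k = joinS (i + 1) s T k := by
      rw [revS, if_neg k1]
    have e2 : revE i e (joinE (i + 1) e L) k = joinE (i + 1) e L k := by
      rw [revE, if_neg k1]
    rw [M2 k k1, e1, e2]
    cases k with
    | zero => exact lev_join_zero hV
    | succ k =>
      refine lev_join_level hV hL hb (hs k) (he k (by omega)) ?_
      rcases Nat.lt_or_ge k i with h | h
      · left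
        intro h0
        have h1 := hV.len (k + 1) h
        rw [h0, List.length_nil] at h1
        rcases Nat.lt_or_ge (k + 1) i with h2 | h2
        · have := Nat.choose_pos (n := i - 1) (k := k + 1) (by omega)
          omega
        · have : k + 1 = i := by omega
          rw [this] at h1
          omega
      · right; exact tl_nil hL hb h hi1
  · intro k p hp q hq
    refine cross_aux hV hL hb (k := k) ?_ ?_
    · by_cases k1 : k = i - 1
      · subst k1
        exact (hX p hp).1
      · rw [M2 k k1] at hp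
        exact descX hp
    · by_cases k1 : k + 1 = i - 1
      · have k2 : k = i - 2 := by omega
        rw [k1] at hq ⊢
        rw [k2]
        exact (hX q hq).2
      · rw [M2 _ k1] at hq
        exact (desc_join hq).2
  · intro k hk
    have e0 : i + 1 - 1 = i := by omega
    rw [e0]
    by_cases k1 : k = i - 1
    · subst k1
      rw [M1, length_foldl, hLlen, List.length_singleton]
      have h2 : i.choose (i - 1) = i := by
        have h3 : i = (i - 1) + 1 := by omega
        conv_lhs => rw [h3]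
        rw [Nat.add_sub_cancel, Nat.choose_succ_self_right]
        omega
      rw [h2]
      omega
    rw [M2 k k1]
    cases k with
    | zero =>
      have := hV.len 0 (by omega)
      simpa [join] using this
    | succ k =>
      rw [join_length, tl_len hL hb]
      rcases Nat.lt_or_ge k i with h | h
      · rw [hV.len (k + 1) h]
        obtain ⟨j, rfl⟩ := Nat.exists_eq_add_of_le' hi1
        rw [Nat.choose_succ_succ' j k, Nat.add_sub_cancel]
        omega
      · have : k = i := by omega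
        subst this
        rw [hV.none (k + 1) (by omega), Nat.choose_eq_zero_of_lt (show k - 1 < k by omega),
          Nat.choose_eq_zero_of_lt (show k < k + 1 by omega)]
        simp only [List.length_nil]
        omega
  · intro k hk
    rw [M2 k (by omega)]
    cases k with
    | zero => omega
    | succ k =>
      obtain ⟨h1, h2⟩ := tl_nil hL hb (show i ≤ k by omega) hi1
      rw [join, h1, h2, hV.none (k + 1) (by omega)]
      rfl

end Pool.Agent.Lib.MP_ad4d1c_co_h48.Ex
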